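import Pool.Agent.X331.AF.Rel
import Pool.Agent.Y377.AO.Proj

set_option autoImplicit false

/-!
# Points of hyperbolic projective varieties given by arithmetic functions

Let `X` be the closed subset of projective `n`-space over a number field `K` given by the forms in
`FF`, of degree at most `d`, let `Z` be a closed subset given by the forms in an ideal `I'` (`Z` is
empty for `I' = ⊤`), and let `σ` be an embedding of `K` in `ℂ`.

We consider the sequences `P(1), P(2), …` of vectors of arithmetic functions with values in a field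
`L ⊇ K` such that for every `m` the point `P (m p)`, `p` a prime number larger than all prime factors
of `m`, is given by one of `s` curves `∑ c_a T ^ (l_a)` with `r` terms, which depend on `m`, at
`T = p` (`PrimeCurves r s P`): multiplicative functions (`σ_k`, `φ`, …), additive functions (`ω`, sum
of the prime factors, …), the greatest prime factor, polynomials, and so on.

The following are equivalent:

* (`NoRat`) there is no nonconstant map from the projective line over `ℂ` to `X` with image not
  contained in `Z`;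
* (`ArithBound`) for ALL fields `L ⊇ K`, all `r`, `s`, all these sequences and all `N`, at most
  `(s (d + 1) ^ r + 60000) N exp (-√(log N) / 4)` points of `X(L)` outside of `Z` are among
  `P(1), …, P(N)`;
* (`ArithSparse`) for all number fields `L ⊇ K` and all sequences with `s = 1` this number is
  `o(N)`.

In particular, if `X_σ` is hyperbolic (`Hyperbolic` for `I' = ⊤`: there are no nonconstant entire
curves; in general, nonconstant entire curves lie in `Z_σ`) then for every field `L ⊇ K` there are
few points of `X(L)` of this kind, with an explicit bound which depends only on the degree of `X`.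
The finiteness of `X(L) ∖ Z(L)` for all finite extensions `L` of `K` (`Finiteness`) implies the
conditions, too.

Method: a curve with `r` terms which is not contained in `X` meets `X` in a bounded number of points
`P(m p)`, uniformly in the exponents (Descartes), and the curves contained in `X` are constant or
contained in `Z`; so each `m` gives a bounded number of points outside of `Z`.  The definitions and
the transfer between number fields and `ℂ` are those of the starting library (`Y719.SU`, `Y377.AO`).
-/

namespace Pool.Agent.Results.MP_627a61_nt.ArithmeticFunctionLang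

open MvPolynomial Filter Pool.Agent.H533R3.SL Pool.Agent.TH717.GO Pool.Agent.Y719.SU
  Pool.Agent.Y377.AO Pool.Agent.X331.AF
open scoped LinearAlgebra.Projectivization

variable {K : Type} [Field K] [NumberField K] {n : ℕ}

/-- the points of `X(L)` outside of `Z` among `P(1), …, P(N)` -/
def outside {L : Type} [Field L] [Algebra K L] (I I' : Ideal (MvPolynomial (Fin (n + 1)) K))
    (P : ℕ → Fin (n + 1) → L) (N : ℕ) : Set (ℙ L (Fin (n + 1) → L)) :=
  {x | x ∈ Pts L I \ Pts L I' ∧ ∃ m, 1 ≤ m ∧ m ≤ N ∧ ∃ h : P m ≠ 0,
    x = Projectivization.mk L (P m) h}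

/-- the explicit bound, over all fields `L ⊇ K`, for a variety `X` of degree at most `d` -/
def ArithBound (d : ℕ) (I I' : Ideal (MvPolynomial (Fin (n + 1)) K)) : Prop :=
  ∀ (L : Type) [Field L] [Algebra K L] (r s : ℕ) (P : ℕ → Fin (n + 1) → L),
    PrimeCurves r s P → ∀ N : ℕ, 1 ≤ N → ((outside I I' P N).ncard : ℝ) ≤
      (s * (d + 1) ^ r + 60000) * N * Real.exp (-(√(Real.log N) / 4))

/-- the points have density zero, over number fields -/
def ArithSparse (I I' : Ideal (MvPolynomial (Fin (n + 1)) K)) : Prop :=
  ∀ (L : Type) [Field L] [NumberField L] [Algebra K L] (r : ℕ) (P : ℕ → Fin (n + 1) → L),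
    PrimeCurves r 1 P →
      Tendsto (fun N : ℕ => ((outside I I' P N).ncard : ℝ) / N) atTop (nhds 0)

/-- the vector `v` is a point of `X` outside of `Z` -/
def Out {L : Type} [Field L] [Algebra K L] (I I' : Ideal (MvPolynomial (Fin (n + 1)) K))
    (v : Fin (n + 1) → L) : Prop :=
  OnI (algebraMap K L) I v ∧ ¬ OnI (algebraMap K L) I' v

theorem outside_eq {L : Type} [Field L] [Algebra K L] (I I' : Ideal (MvPolynomial (Fin (n + 1)) K))
    (P : ℕ → Fin (n + 1) → L) (N : ℕ) : outside I I' P N = famPts (Out I I') P N := by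
  ext x
  constructor
  · rintro ⟨⟨h1, h2⟩, m, hm1, hm2, h, rfl⟩
    exact ⟨m, hm1, hm2, h, rfl, (mem_pts h).1 h1, fun h3 => h2 ((mem_pts h).2 h3)⟩
  · rintro ⟨m, hm1, hm2, h, rfl, h1, h2⟩
    exact ⟨⟨(mem_pts h).2 h1, fun h3 => h2 ((mem_pts h).1 h3)⟩, m, hm1, hm2, h, rfl⟩

theorem onI_iff {L : Type} [Field L] [Algebra K L] (I : Ideal (MvPolynomial (Fin (n + 1)) K))
    (v w : Fin (n + 1) → L) (u : L) (hu : u ≠ 0) (h : ∀ i, v i = u * w i) :
    OnI (algebraMap K L) I v ↔ OnI (algebraMap K L) I w := by
  constructor
  · intro h1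
    have h2 := onI_smul h1 u⁻¹
    have h3 : (fun j => u⁻¹ * v j) = w := by
      funext j
      rw [h j, ← mul_assoc, inv_mul_cancel₀ hu, one_mul]
    rwa [h3] at h2
  · intro h1
    have h2 := onI_smul h1 u
    have h3 : (fun j => u * w j) = v := funext fun j => (h j).symm
    rwa [h3] at h2

theorem bound_of_noRatNF (d : ℕ) (FF : Set (MvPolynomial (Fin (n + 1)) K))
    (hhom : ∀ F ∈ FF, ∃ e, e ≤ d ∧ F.IsHomogeneous e)
    (I' : Ideal (MvPolynomial (Fin (n + 1)) K)) (h : NoRatNF (Ideal.span FF) I') :
    ArithBound d (Ideal.span FF) I' := by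
  classical
  intro L _ _ r s P hP N hN
  have hchar : CharZero L := charZero_of_injective_algebraMap
    (FaithfulSMul.algebraMap_injective K L)
  rw [outside_eq]
  refine rel_bound FF d hhom (Out (Ideal.span FF) I') ?_ ?_ ?_ s P hP N hN
  · rintro v ⟨hv, -⟩ F hF
    obtain ⟨e, -, he⟩ := hhom F hF
    exact hv F (Ideal.subset_span hF) ⟨e, he⟩
  · rintro u v w hu hvw ⟨h1, h2⟩
    exact ⟨(onI_iff _ v w u hu hvw).1 h1, fun h3 => h2 ((onI_iff _ v w u hu hvw).2 h3)⟩
  · rintro c l hcur ⟨-, hnot⟩
    unfold OnI at hnot
    push Not at hnot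
    obtain ⟨G, hG, hGh, hne⟩ := hnot
    have hcc := curCond_of_noRatNF h hG hGh r
    have h1 := hcc L (cur c l) (Finset.univ.image l) (by
        refine Finset.card_image_le.trans ?_
        simp) (by
        intro i w hw
        rw [Polynomial.mem_support_iff] at hw
        unfold cur at hw
        rw [Polynomial.finsetSum_coeff] at hw
        obtain ⟨j, -, hj⟩ := Finset.exists_ne_zero_of_sum_ne_zero hw
        rw [Polynomial.coeff_C_mul_X_pow] at hj
        rw [Finset.mem_image]
        refine ⟨j, Finset.mem_univ _, ?_⟩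
        by_contra hne'
        exact hj (if_neg fun h => hne' h.symm)) (by
        rintro F ⟨hF, -⟩
        have hker : Ideal.span FF ≤ RingHom.ker
            (MvPolynomial.aeval (cur c l) : MvPolynomial (Fin (n + 1)) K →ₐ[K] Polynomial L) := by
          rw [Ideal.span_le]
          intro F' hF'
          exact hcur F' hF'
        exact hker hF) (by
        have h2 : (fun i => (cur c l i).eval 1) = fun i => ∑ j, c j i :=
          funext fun i => cur_eval_one c l i
        rw [h2]
        exact hne)
    intro i i'
    have h2 := h1 i i'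
    rwa [cur_eval_one, cur_eval_one] at h2

theorem tendsto_bound (A : ℝ) :
    Tendsto (fun N : ℕ => A * Real.exp (-(√(Real.log N) / 4))) atTop (nhds 0) := by
  have h1 : Tendsto (fun N : ℕ => √(Real.log N) / 4) atTop atTop := by
    refine Tendsto.atTop_div_const (by norm_num) ?_
    exact Real.tendsto_sqrt_atTop.comp (Real.tendsto_log_atTop.comp tendsto_natCast_atTop_atTop)
  have h2 := (Real.tendsto_exp_neg_atTop_nhds_zero.comp h1).const_mul A
  rw [mul_zero] at h2
  exact h2

theorem sparse_of_bound {d : ℕ} {I I' : Ideal (MvPolynomial (Fin (n + 1)) K)}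
    (h : ArithBound d I I') : ArithSparse I I' := by
  intro L _ _ _ r P hP
  have h1 := tendsto_bound (((1 : ℕ) : ℝ) * (d + 1) ^ r + 60000)
  refine squeeze_zero' (Eventually.of_forall fun N => by positivity) ?_ h1
  filter_upwards [eventually_ge_atTop 1] with N hN
  have h2 := h L r 1 P hP N hN
  have hNR : (0 : ℝ) < N := by exact_mod_cast hN
  rw [div_le_iff₀ hNR]
  calc ((outside I I' P N).ncard : ℝ) ≤ _ := h2
    _ = _ := by ring

theorem noRatNF_of_sparse {I I' : Ideal (MvPolynomial (Fin (n + 1)) K)}
    (h : ArithSparse I I') : NoRatNF I I' := by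
  classical
  intro L _ _ _ p ⟨h1, ⟨G', hG', hGh, hne⟩, hnc⟩
  set q₀ := eval₂ (Polynomial.C.comp (algebraMap K L)) p G' with hq0
  obtain ⟨D, δ, hδ, hPC, N₀, hlow⟩ := rel_lower p hnc (Out I I') q₀ hne (by
    intro m hm
    refine ⟨fun G hG hd => ?_, fun hc => ?_⟩
    · have h2 := congrArg (Polynomial.eval (m : L)) (h1 G hG hd)
      rwa [Pool.Agent.TH143.HE.eval₂_eval, Polynomial.eval_zero] at h2
    · have h2 := hc G' hG' hGh
      apply hm
      rw [hq0, Pool.Agent.TH143.HE.eval₂_eval]
      exact h2)
  have h2 := h L D _ hPC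
  have h3 := h2.eventually (gt_mem_nhds hδ)
  obtain ⟨N, hN1, hN2, hN3⟩ :=
    (h3.and ((eventually_ge_atTop N₀).and (eventually_ge_atTop 1))).exists
  have hNR : (0 : ℝ) < N := by exact_mod_cast hN3
  rw [outside_eq, div_lt_iff₀ hNR] at hN1
  exact absurd (hlow N hN2) (not_le.2 hN1)

theorem result {K : Type} [Field K] [NumberField K] (σ : K →+* ℂ) {n : ℕ} (d : ℕ)
    (FF : Set (MvPolynomial (Fin (n + 1)) K)) (hhom : ∀ F ∈ FF, ∃ e, e ≤ d ∧ F.IsHomogeneous e)
    (I' : Ideal (MvPolynomial (Fin (n + 1)) K)) :
    List.TFAE [NoRat σ (Ideal.span FF) I', ArithBound d (Ideal.span FF) I',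
      ArithSparse (Ideal.span FF) I'] ∧
    (Hyperbolic σ (Ideal.span FF) I' → ArithBound d (Ideal.span FF) I') ∧
    (Finiteness (Ideal.span FF) I' → ArithBound d (Ideal.span FF) I') := by
  refine ⟨?_, fun h => bound_of_noRatNF d FF hhom I' (noRatNF_of σ (noRat_of_hyp σ h)),
    fun h => bound_of_noRatNF d FF hhom I' (noRat_of_fin (fin_of_finiteness h))⟩
  tfae_have 1 → 2 := fun h => bound_of_noRatNF d FF hhom I' (noRatNF_of σ h)
  tfae_have 2 → 3 := sparse_of_bound
  tfae_have 3 → 1 := fun h => noRat_of_NF σ (noRatNF_of_sparse h)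
  tfae_finish

end Pool.Agent.Results.MP_627a61_nt.ArithmeticFunctionLang
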