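import Mathlib
import Pool.Agent.X332.GT.NestLang

set_option autoImplicit false

/-!
# Hyperbolicity and rational points of varieties given by nested sums of high powers

Let `K` be a number field, embedded in `ℂ` by `σ`. Let `X` be the closed subset of `P^N` which is
given by forms `G i` over `K` that are, over `ℂ`, nested sums of high powers of linear forms: at each
of at most `h + 1` levels there are at most `s` summands and the exponents are at least
`(N + 1) (h + 1) (2 s + 1) ^ 5`. So `X` may have any dimension, any number of components and any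
singularities. Let `Z` be given by the forms in any ideal `I'` over `K` (`I' = ⊤` for `Z = ∅`).

(1) Thirteen conditions are equivalent. Five of them are geometric: all nonconstant entire curves in
`X_σ` lie in `Z_σ` (for `Z = ∅`: `X_σ` is hyperbolic); all holomorphic maps from the punctured disc to
`X_σ` with an essential singularity have image in `Z_σ`; all nonconstant rational curves in `X_σ` lie
in `Z_σ`; all subvarieties of `X_σ` of positive dimension not contained in `Z_σ`, or all varieties with
a generically finite map to `X_σ` with image not in `Z_σ`, are of general type. Two of them concern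
sequences of complex points: the sequences of points of `X` outside of `Z` which satisfy linear
recurrences over towers of fields of coefficients, or have coordinates in a finitely generated field
of coefficients, are eventually periodic. The other six concern the algebraic points of `X` outside
of `Z` which are sums of a bounded number of multiples of vectors, with multipliers in or near groups
of finite rank (see `Pool/Agent/X332/FR/Def.lean`). The last six conditions do not depend on `σ`.

(2) If `(X ∖ Z)(L)` is finite for all finite extensions `L` of `K`, then all these conditions hold. So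
if `X(L)` is finite for all finite extensions `L` of `K`, then `X_σ` is hyperbolic: this is the
converse of the conjecture for these varieties.

(3) If these conditions hold, for instance if `Z = ∅` and `X_σ` is hyperbolic, then for all number
fields `L ⊇ K` all the sequences of points of `X(L)` outside of `Z` which satisfy linear recurrences
over towers of fields of coefficients have only finitely many different terms. The towers start with
any finitely generated field of coefficients, for instance that of the rational functions along a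
generic orbit of a rational self-map of a variety of any dimension.
-/

namespace Pool.Agent.Results.MP_627a61_nt.NestedLang

open MvPolynomial Filter Metric
open Pool.Agent.TH143.DE Pool.Agent.TH143.HE Pool.Agent.TH143.TW Pool.Agent.TH143.GE
open Pool.Agent.X332.TO Pool.Agent.X332.GT Pool.Agent.X332.FR
open Pool.Agent.Y719.SU (Hyperbolic NoRat Finiteness)
open Pool.Agent.TH710.ND (IsNested)
open Pool.Agent.W602.GT (coords GeneralType)
open Pool.Agent.W603.BP (Extends)

variable {K : Type} [Field K] [NumberField K] {N : ℕ}

/-- Every holomorphic map from the punctured disc to `X_σ` with an essential singularity has its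
image in `Z_σ`. -/
def PicardIn (σ : K →+* ℂ) (I I' : Ideal (MvPolynomial (Fin (N + 1)) K)) : Prop :=
  ∀ f : ℂ → Fin (N + 1) → ℂ, DifferentiableOn ℂ f (ball 0 1 \ {0}) →
    (∀ z ∈ ball (0 : ℂ) 1 \ {0}, f z ≠ 0 ∧ IsPtP σ I (f z)) → ¬ Extends f →
    ∀ z ∈ ball (0 : ℂ) 1 \ {0}, IsPtP σ I' (f z)

/-- Let `F` be the function field and let `y` be the generic point, in homogeneous coordinates, of a
closed subvariety of `X_σ` of dimension `w > 0` which is not contained in `Z_σ`. Then the subvariety
is of general type. -/
def SubvarietiesGeneralType (σ : K →+* ℂ) (I I' : Ideal (MvPolynomial (Fin (N + 1)) K)) : Prop :=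
  ∀ (F : Type) [Field F] [Algebra ℂ F] (w : ℕ) (y : Fin (N + 1) → F), 1 ≤ w →
    Algebra.trdeg ℂ F = w → y ≠ 0 → coords ℂ y = ⊤ →
    IsPtP ((algebraMap ℂ F).comp σ) I y → ¬ IsPtP ((algebraMap ℂ F).comp σ) I' y →
    GeneralType ℂ F w

/-- Every variety with a generically finite map to `X_σ`, with image not contained in `Z_σ`, is of
general type. Here `F` is the function field, `w` the dimension and `y` is the image of the generic
point in homogeneous coordinates. -/
def MapsGeneralType (σ : K →+* ℂ) (I I' : Ideal (MvPolynomial (Fin (N + 1)) K)) : Prop :=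
  ∀ (F : Type) [Field F] [Algebra ℂ F] (w : ℕ) (y : Fin (N + 1) → F),
    Algebra.trdeg ℂ F = w → y ≠ 0 → Algebra.IsAlgebraic (coords ℂ y) F →
    IsPtP ((algebraMap ℂ F).comp σ) I y → ¬ IsPtP ((algebraMap ℂ F).comp σ) I' y →
    GeneralType ℂ F w

/-- Let `B` be the last field of a tower. Every sequence of points of `X(ℂ)` outside of `Z(ℂ)` with
homogeneous coordinates satisfying linear recurrences over `B` is eventually periodic. -/
def TowersPeriodic (σ : K →+* ℂ) (I I' : Ideal (MvPolynomial (Fin (N + 1)) K)) : Prop :=
  ∀ B : Subalgebra ℂ (ℕ → ℂ), TowF B → ∀ x : ℕ → Fin (N + 1) → ℂ, (∀ᶠ m in atTop, x m ≠ 0) →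
    (∀ j, LinRec B fun m => x m j) → (∀ᶠ m in atTop, IsPtP σ I (x m)) →
    (∀ᶠ m in atTop, ¬ IsPtP σ I' (x m)) → Per x

/-- Let `B` be a finitely generated field of coefficients. Every sequence of points of `X(ℂ)` outside
of `Z(ℂ)` with homogeneous coordinates in `B` is eventually periodic. -/
def FieldsPeriodic (σ : K →+* ℂ) (I I' : Ideal (MvPolynomial (Fin (N + 1)) K)) : Prop :=
  ∀ B : Subalgebra ℂ (ℕ → ℂ), CoefField B → FinGen B →
    ∀ x : ℕ → Fin (N + 1) → ℂ, (∀ᶠ m in atTop, x m ≠ 0) → (∀ j, (fun m => x m j) ∈ B) →
    (∀ᶠ m in atTop, IsPtP σ I (x m)) → (∀ᶠ m in atTop, ¬ IsPtP σ I' (x m)) → Per x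

/-- Let `L` be a finite extension of `K`, with an embedding `τ` which extends `σ`, and let `B` be the
last field of a tower. Every sequence of points of `X(L)` outside of `Z(L)` with homogeneous
coordinates satisfying linear recurrences over `B` has only finitely many different terms. -/
def RationalFinite (σ : K →+* ℂ) (I I' : Ideal (MvPolynomial (Fin (N + 1)) K)) : Prop :=
  ∀ (L : Type) [Field L] [NumberField L] [Algebra K L] (τ : L →+* ℂ),
    τ.comp (algebraMap K L) = σ → ∀ B : Subalgebra ℂ (ℕ → ℂ), TowF B →
    ∀ (x : ℕ → Fin (N + 1) → L) (hx : ∀ m, x m ≠ 0), (∀ j, LinRec B fun m => τ (x m j)) →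
    (∀ m, IsPtP (algebraMap K L) I (x m)) → (∀ m, ¬ IsPtP (algebraMap K L) I' (x m)) →
    (Set.range fun m => Projectivization.mk L (x m) (hx m)).Finite

/-- `X` is the closed subset of `P^N` given by the forms in the ideal `I` generated by the `G i`, and
`Z` the closed subset given by the forms in `I'`. -/
theorem result (σ : K →+* ℂ) {ι : Type} (G : ι → MvPolynomial (Fin (N + 1)) K) {s M h : ℕ}
    (hG : ∀ i, IsNested s M h (map σ (G i))) (hM : (N + 1) * ((h + 1) * (2 * s + 1) ^ 5) ≤ M)
    (I I' : Ideal (MvPolynomial (Fin (N + 1)) K)) (hI : I = Ideal.span (Set.range G)) :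
    [Hyperbolic σ I I', PicardIn σ I I', NoRat σ I I', SubvarietiesGeneralType σ I I',
      MapsGeneralType σ I I', TowersPeriodic σ I I', FieldsPeriodic σ I I', SumHeight I I',
      SumFinite I I', NearFinite I I', SmallUniform I I', RootsUniform I I',
      RootsFinite I I'].TFAE ∧
    (Finiteness I I' → Hyperbolic σ I I') ∧
    (Hyperbolic σ I I' → RationalFinite σ I I') := by
  subst hI
  have hform : ∀ i, ∃ d, (G i).IsHomogeneous d := fun i => hom_of_map (hG i).form
  have hfr := main_fr σ (Ideal.span (Set.range G)) I'
  have h13 : Hyperbolic σ (Ideal.span (Set.range G)) I' → NoRat σ (Ideal.span (Set.range G)) I' :=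
    Pool.Agent.Y719.SU.noRat_of_hyp σ
  have hgm : NoRat σ (Ideal.span (Set.range G)) I' →
      ∀ x ∈ Pool.Agent.H159R3.WarLog.gmPoints (fC σ G) (noQ N), IsPtP σ I' x := fun h =>
    gm_in_of_rat hform (ratCurvesIn_iff.2 h) (noQ N)
  have h31 : NoRat σ (Ideal.span (Set.range G)) I' → Hyperbolic σ (Ideal.span (Set.range G)) I' :=
    fun h => hyp_of_gm hform hG hM (hgm h)
  have h32 : NoRat σ (Ideal.span (Set.range G)) I' → PicardIn σ (Ideal.span (Set.range G)) I' :=
    fun h => picard_of_gm hform hG hM (hgm h)
  have h21 : PicardIn σ (Ideal.span (Set.range G)) I' →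
      Hyperbolic σ (Ideal.span (Set.range G)) I' := fun h =>
    hyp_of_gm hform hG hM (gm_of_picard hform hG hM h)
  have h35 : NoRat σ (Ideal.span (Set.range G)) I' →
      MapsGeneralType σ (Ideal.span (Set.range G)) I' := fun h =>
    maps_of_gm hform hG hM (hgm h)
  have h54 : MapsGeneralType σ (Ideal.span (Set.range G)) I' →
      SubvarietiesGeneralType σ (Ideal.span (Set.range G)) I' := fun h => allGT_of_maps h
  have h47 : SubvarietiesGeneralType σ (Ideal.span (Set.range G)) I' →
      FieldsPeriodic σ (Ideal.span (Set.range G)) I' := fun h => fldPer_of_allGT h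
  have h76 : FieldsPeriodic σ (Ideal.span (Set.range G)) I' →
      TowersPeriodic σ (Ideal.span (Set.range G)) I' := fun h B hB => towF_good h hB
  have h67 : TowersPeriodic σ (Ideal.span (Set.range G)) I' →
      FieldsPeriodic σ (Ideal.span (Set.range G)) I' := fun h B hB hF x h1 h2 h3 h4 =>
    h B (TowF.base hB hF) x h1 (fun j => linRec_of_mem hB (h2 j)) h3 h4
  have h73 : FieldsPeriodic σ (Ideal.span (Set.range G)) I' →
      NoRat σ (Ideal.span (Set.range G)) I' := fun h => ratCurvesIn_iff.1 (rat_of_fldPer h)
  have e1 : NoRat σ (Ideal.span (Set.range G)) I' ↔ SumHeight (Ideal.span (Set.range G)) I' :=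
    hfr.out 0 1
  have e2 : NoRat σ (Ideal.span (Set.range G)) I' ↔ SumFinite (Ideal.span (Set.range G)) I' :=
    hfr.out 0 2
  have e3 : NoRat σ (Ideal.span (Set.range G)) I' ↔ NearFinite (Ideal.span (Set.range G)) I' :=
    hfr.out 0 3
  have e4 : NoRat σ (Ideal.span (Set.range G)) I' ↔ SmallUniform (Ideal.span (Set.range G)) I' :=
    hfr.out 0 4
  have e5 : NoRat σ (Ideal.span (Set.range G)) I' ↔ RootsUniform (Ideal.span (Set.range G)) I' :=
    hfr.out 0 5
  have e6 : NoRat σ (Ideal.span (Set.range G)) I' ↔ RootsFinite (Ideal.span (Set.range G)) I' :=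
    hfr.out 0 6
  refine ⟨?_, ?_, ?_⟩
  · tfae_have 1 → 3 := h13
    tfae_have 3 → 1 := h31
    tfae_have 3 → 2 := h32
    tfae_have 2 → 1 := h21
    tfae_have 3 → 5 := h35
    tfae_have 5 → 4 := h54
    tfae_have 4 → 7 := h47
    tfae_have 7 → 6 := h76
    tfae_have 6 → 7 := h67
    tfae_have 7 → 3 := h73
    tfae_have 3 ↔ 8 := e1
    tfae_have 3 ↔ 9 := e2
    tfae_have 3 ↔ 10 := e3
    tfae_have 3 ↔ 11 := e4
    tfae_have 3 ↔ 12 := e5
    tfae_have 3 ↔ 13 := e6
    tfae_finish
  · intro hF
    obtain ⟨hm1, -, h2⟩ := Pool.Agent.Y719.SU.main σ (Ideal.span (Set.range G)) I'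
    have e3 : NoRat σ (Ideal.span (Set.range G)) I' ↔
        Pool.Agent.Y719.SU.HtBound (Ideal.span (Set.range G)) I' := hm1.out 0 3
    exact h31 (e3.2 (h2 hF))
  · intro hH L _ _ _ τ hτ B hB x hx hrec hX hZ
    have h1 := h76 (h47 (h54 (h35 (h13 hH))))
    refine finite_of_per hx (h1 B hB (fun m j => τ (x m j)) ?_ hrec ?_ ?_)
    · refine Eventually.of_forall fun m h0 => hx m ?_
      funext j
      exact (map_eq_zero_iff τ τ.injective).1 (congrFun h0 j)
    · exact Eventually.of_forall fun m => (isPtP_emb hτ _ (x m)).2 (hX m)
    · exact Eventually.of_forall fun m h0 => hZ m ((isPtP_emb hτ I' (x m)).1 h0)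

end Pool.Agent.Results.MP_627a61_nt.NestedLang
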