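import Mathlib
import Pool.Agent.X332.TO.Base

set_option autoImplicit false

/-!
# Points on hyperbolic varieties given by iterated recurrences over orbits on curves

Let `X` and `Z` be the closed subsets of the projective space given by the forms in the ideals `I`
and `I'` over a number field `K`, embedded in `ℂ` by `σ` (`Z` is empty for `I' = ⊤`). We consider
sequences of complex numbers. A *field of coefficients* (`CoefField`) is an algebra `B` of sequences,
closed under the shift and under inversion, whose elements vanish from some index on or do not vanish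
from some index on. The *towers* (`Tow1`) of fields of coefficients start with a finitely generated
field of transcendence degree at most one over `ℂ`, for instance (`coef`) with the field of the
rational functions along an orbit `t 0, t 1, …` with different terms of a rational self-map of an
arbitrary affine curve; in each step one goes to a field of coefficients which is generated by
finitely many sequences satisfying linear recurrences over the previous field. Division is allowed in
all steps. Let `x 0, x 1, …` be a sequence of points of `X(ℂ)` outside of `Z(ℂ)` with homogeneous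
coordinates which satisfy linear recurrences with coefficients in the last field of such a tower.

* The sequences of this kind are all eventually periodic if and only if there are no nonconstant maps
  from curves of genus zero or one to `X_σ` with image not contained in `Z_σ`. This is also
  equivalent to: the sequences of points of `X(ℂ)` outside of `Z(ℂ)` with coordinates in a finitely
  generated field of coefficients of transcendence degree at most one are eventually periodic.
* All this holds if `X_σ` is hyperbolic (more generally, if all nonconstant entire curves in `X_σ` lie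
  in `Z_σ`). So among the rational points of a hyperbolic variety `X` over the finite extensions `L`
  of `K` only finitely many lie on any given sequence of this kind.
-/

namespace Pool.Agent.Results.MP_627a61_nt.OrbitTowers

open MvPolynomial Filter
open Pool.Agent.TH143.DE Pool.Agent.TH143.HE Pool.Agent.TH143.TW Pool.Agent.TH143.GE
open Pool.Agent.X332.OR Pool.Agent.X332.TO Pool.Agent.Y719.LC
open Pool.Agent.TH143.EL (HolMap InV)
open scoped LinearAlgebra.Projectivization

variable {K : Type} [Field K] [NumberField K] {N : ℕ}

/-- Every nonconstant holomorphic map from `ℂ` to `X_σ` has its image in `Z_σ`. Here `X` and `Z` are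
the closed subsets of the projective space given by the forms in `I` and in `I'`. For `I' = ⊤` the
variety `Z` is empty, and the condition is the hyperbolicity of `X_σ`. -/
def HyperbolicMod (σ : K →+* ℂ) (I I' : Ideal (MvPolynomial (Fin (N + 1)) K)) : Prop :=
  ∀ f : ℂ → ℙ ℂ (Fin (N + 1) → ℂ), HolMap f → (∀ z, InV (cI σ I) (f z)) → (∃ z w, f z ≠ f w) →
    ∀ z, InV (cI σ I') (f z)

/-- Every nonconstant map from the projective line to `X_σ`, and every nonconstant map from a curve
of genus one to `X_σ`, has its image in `Z_σ`. -/
def GenusLeOneIn (σ : K →+* ℂ) (I I' : Ideal (MvPolynomial (Fin (N + 1)) K)) : Prop :=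
  RatCurvesIn σ I I' ∧ GenusOneIn σ I I'

/-- Let `B` be the last field of a tower. Every sequence of points of `X(ℂ)` outside of `Z(ℂ)` with
homogeneous coordinates satisfying linear recurrences over `B` is eventually periodic. -/
def TowersPeriodic (σ : K →+* ℂ) (I I' : Ideal (MvPolynomial (Fin (N + 1)) K)) : Prop :=
  ∀ B : Subalgebra ℂ (ℕ → ℂ), Tow1 B → ∀ x : ℕ → Fin (N + 1) → ℂ, (∀ᶠ m in atTop, x m ≠ 0) →
    (∀ j, LinRec B fun m => x m j) → (∀ᶠ m in atTop, IsPtP σ I (x m)) →
    (∀ᶠ m in atTop, ¬ IsPtP σ I' (x m)) → Per x

/-- Let `B` be a finitely generated field of coefficients of transcendence degree at most one over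
`ℂ`. Every sequence of points of `X(ℂ)` outside of `Z(ℂ)` with homogeneous coordinates in `B` is
eventually periodic. -/
def FieldsPeriodic (σ : K →+* ℂ) (I I' : Ideal (MvPolynomial (Fin (N + 1)) K)) : Prop :=
  ∀ B : Subalgebra ℂ (ℕ → ℂ), CoefField B → FinGen B → TrLe B 1 →
    ∀ x : ℕ → Fin (N + 1) → ℂ, (∀ᶠ m in atTop, x m ≠ 0) → (∀ j, (fun m => x m j) ∈ B) →
    (∀ᶠ m in atTop, IsPtP σ I (x m)) → (∀ᶠ m in atTop, ¬ IsPtP σ I' (x m)) → Per x

/-- Let `t 0, t 1, …` be an orbit of a rational self-map of an affine curve. Every sequence of points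
of `X(ℂ)` outside of `Z(ℂ)` with homogeneous coordinates satisfying linear recurrences whose
coefficients are polynomials in the coordinates of `t m` is eventually periodic. -/
def OrbitsPeriodic (σ : K →+* ℂ) (I I' : Ideal (MvPolynomial (Fin (N + 1)) K)) : Prop :=
  ∀ (D : ℕ) (𝔱 : Ideal (MvPolynomial (Fin D) ℂ)) (t : ℕ → Fin D → ℂ), Orbit 𝔱 t →
    Algebra.trdeg ℂ (MvPolynomial (Fin D) ℂ ⧸ 𝔱) ≤ 1 →
    ∀ x : ℕ → Fin (N + 1) → ℂ, (∀ m, x m ≠ 0) → (∀ j, RecAlong 𝔱 t fun m => x m j) →
    (∀ m, IsPtP σ I (x m)) → (∀ m, ¬ IsPtP σ I' (x m)) → Per x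

/-- Let `L` be a finite extension of `K`, with an embedding `τ` which extends `σ`, and let `B` be the
last field of a tower. Every sequence of points of `X(L)` outside of `Z(L)` with homogeneous
coordinates satisfying linear recurrences over `B` has only finitely many different terms. -/
def RationalFinite (σ : K →+* ℂ) (I I' : Ideal (MvPolynomial (Fin (N + 1)) K)) : Prop :=
  ∀ (L : Type) [Field L] [NumberField L] [Algebra K L] (τ : L →+* ℂ),
    τ.comp (algebraMap K L) = σ → ∀ B : Subalgebra ℂ (ℕ → ℂ), Tow1 B →
    ∀ (x : ℕ → Fin (N + 1) → L) (hx : ∀ m, x m ≠ 0), (∀ j, LinRec B fun m => τ (x m j)) →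
    (∀ m, IsPtP (algebraMap K L) I (x m)) → (∀ m, ¬ IsPtP (algebraMap K L) I' (x m)) →
    (Set.range fun m => Projectivization.mk L (x m) (hx m)).Finite

omit [NumberField K] in
theorem isPtP_emb {L : Type} [Field L] [Algebra K L] {σ : K →+* ℂ} {τ : L →+* ℂ}
    (hτ : τ.comp (algebraMap K L) = σ) (J : Ideal (MvPolynomial (Fin (N + 1)) K))
    (y : Fin (N + 1) → L) : IsPtP σ J (fun j => τ (y j)) ↔ IsPtP (algebraMap K L) J y := by
  have h1 : ∀ G : MvPolynomial (Fin (N + 1)) K,
      eval₂ σ (fun j => τ (y j)) G = τ (eval₂ (algebraMap K L) y G) := by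
    intro G
    rw [← hτ]
    exact (MvPolynomial.eval₂_comp_left τ (algebraMap K L) y G).symm
  constructor
  · intro h G hG hd
    have h2 := h G hG hd
    rw [h1, map_eq_zero_iff τ τ.injective] at h2
    exact h2
  · intro h G hG hd
    rw [h1, h G hG hd, map_zero]

/-- eventually periodic sequences of points have finitely many terms -/
theorem finite_of_per {L : Type} [Field L] {τ : L →+* ℂ} {x : ℕ → Fin (N + 1) → L}
    (hx : ∀ m, x m ≠ 0) (h : Per fun m j => τ (x m j)) :
    (Set.range fun m => Projectivization.mk L (x m) (hx m)).Finite := by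
  obtain ⟨k, m0, hk, hper⟩ := h
  have hstep : ∀ m, m0 ≤ m → Projectivization.mk L (x (m + k)) (hx (m + k)) =
      Projectivization.mk L (x m) (hx m) := by
    intro m hm
    rw [Projectivization.mk_eq_mk_iff']
    obtain ⟨i0, hi0⟩ := Function.ne_iff.1 (hx m)
    have hi0' : x m i0 ≠ 0 := hi0
    refine ⟨x (m + k) i0 / x m i0, ?_⟩
    funext j
    have h1 : x (m + k) i0 * x m j = x (m + k) j * x m i0 := by
      apply τ.injective
      rw [map_mul, map_mul]
      exact hper m hm i0 j
    rw [Pi.smul_apply, smul_eq_mul, div_mul_eq_mul_div, h1, mul_div_assoc, div_self hi0', mul_one]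
  refine ((Set.finite_lt_nat (m0 + k)).image fun m => Projectivization.mk L (x m) (hx m)).subset ?_
  rintro _ ⟨m, rfl⟩
  induction m using Nat.strong_induction_on with
  | _ m ih =>
    rcases Nat.lt_or_ge m (m0 + k) with h1 | h1
    · exact ⟨m, h1, rfl⟩
    · have h2 := hstep (m - k) (by omega)
      have h3 : m - k + k = m := Nat.sub_add_cancel (by omega)
      simp only [h3] at h2
      have h4 : Projectivization.mk L (x m) (hx m) ∈
          (fun m => Projectivization.mk L (x m) (hx m)) '' {i | i < m0 + k} := by
        rw [h2]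
        exact ih (m - k) (by omega)
      exact h4

theorem result (σ : K →+* ℂ) (I I' : Ideal (MvPolynomial (Fin (N + 1)) K)) :
    [GenusLeOneIn σ I I', TowersPeriodic σ I I', FieldsPeriodic σ I I'].TFAE ∧
    (HyperbolicMod σ I I' → TowersPeriodic σ I I') ∧
    (TowersPeriodic σ I I' → OrbitsPeriodic σ I I' ∧ RationalFinite σ I I') := by
  have h12 : GenusLeOneIn σ I I' → TowersPeriodic σ I I' := fun h B hB x h1 h2 h3 h4 =>
    tow1_good h.1 h.2 hB x h1 h2 h3 h4
  refine ⟨?_, fun h => h12 ⟨?_, ?_⟩, fun h => ⟨?_, ?_⟩⟩
  · tfae_have 1 → 2 := h12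
    tfae_have 2 → 3 := fun h B hB hF hT x h1 h2 h3 h4 =>
      h B (Tow1.base hB hF hT) x h1 (fun j => linRec_of_mem hB (h2 j)) h3 h4
    tfae_have 3 → 1 := by
      intro h
      by_contra hcon
      obtain ⟨B, hB, hF, hT, x, h1, h2, h3, h4, h5⟩ := exists_bad hcon
      exact h5 (h B hB hF hT x h2 h1 h3 h4)
    tfae_finish
  · rw [← rat_cI]
    exact Pool.Agent.TH143.EL.ratCurves_of_torus fun _ _ _ f hf _ _ hI hnc => h f hf hI hnc
  · exact genusOne_of_ell (ell_of_ent fun f hf _ hI hnc => h f hf hI hnc)
  · intro D 𝔱 t ho htr x h1 h2 h3 h4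
    refine h (coef ho) (Tow1.base (coef_field ho) (finGen_coef ho) (coef_tr ho ?_)) x
      (Eventually.of_forall h1) (fun j => (h2 j).linRec ho) (Eventually.of_forall h3)
      (Eventually.of_forall h4)
    exact_mod_cast htr
  · intro L _ _ _ τ hτ B hB x hx hrec hX hZ
    refine finite_of_per hx (h B hB (fun m j => τ (x m j)) ?_ hrec ?_ ?_)
    · refine Eventually.of_forall fun m h0 => hx m ?_
      funext j
      exact (map_eq_zero_iff τ τ.injective).1 (congrFun h0 j)
    · exact Eventually.of_forall fun m => (isPtP_emb hτ I (x m)).2 (hX m)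
    · exact Eventually.of_forall fun m h0 => hZ m ((isPtP_emb hτ I' (x m)).1 h0)

end Pool.Agent.Results.MP_627a61_nt.OrbitTowers
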