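import Pool.Agent.X251.WA.Conv
import Pool.Agent.TH409.SH.Fin2

set_option autoImplicit false

/-!
# Weighted automata and regular sequences on hyperbolic varieties

Let `X` be the closed subset of projective `n`-space over a number field `k` given by the forms in
`FF`, and let `σ` be an embedding of `k` in `ℂ`.

A weighted automaton of size `r` over a number field `K ⊇ k`, with the finite alphabet `A`, consists
of arbitrary (also singular) `r × r` matrices `μ(a)`, `a ∈ A`, a matrix `M` with `n + 1` rows, and a
vector `v`; a word `w = a₁ ⋯ a_m` represents the vector `M μ(a₁) ⋯ μ(a_m) v` (`pt M μ v w`).  We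
consider automata such that for every word this vector is zero or represents a point of `X(K)`.

A sequence `x(0), x(1), …` of vectors over `K` is `b`-regular of rank at most `r` (`Reg b r x`;
Allouche and Shallit) if its coordinates are in a space `V` of sequences of dimension at most `r`
which contains `(f(b m + c))_m` for all `f` in `V` and `0 ≤ c < b`.  For instance `b`-automatic
sequences, polynomials, `b`-adic sums of digits and `b`-adic valuations are `b`-regular.

(1) If `X_σ` is Brody (equivalently Kobayashi) hyperbolic, then `X_σ` contains no nonconstant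
rational curve.

(2) The following are equivalent.

* `X_σ` contains no nonconstant rational curve.
* (`AutomatonBound`) For all weighted automata of size `r` over number fields `K ⊇ k` of degree at
  most `D`, with `q` letters, all words of which represent points of `X` (or zero): every such point
  is represented by a word of length less than `Λ = Lam (NB r D) q (r + 1)`; in particular there are
  at most `1 + q + ⋯ + q ^ (Λ - 1)` points.  This number does not depend on `X` or `k`.
* (`RegularBound`) For all `b ≥ 2`, every `b`-regular sequence of rank at most `r` of points of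
  `X(K)` (or zero), `K` of degree at most `D`, takes all its values, as points, at arguments
  `m < b ^ Λ`, `Λ = Lam (NB r D) b (r + 1)`.
* (`RegularFinite`) Every 2-regular sequence of points of `X` over a number field (or zero) consists
  of finitely many points.

Here `NB r D = r ∑_{s ≤ r} ∏_{f = 1}^{D} |GL_s(𝔽_{2^f})| |GL_s(𝔽_{3^f})|`, `Lam N q 0 = 1` and
`Lam N q (m + 1) = Lam N q m (N q ^ (Lam N q m) + 1)`.

For automata with invertible matrices, compare the starting hand-in `ContextFreeMatrixProducts`; here
the matrices may be singular, so that there is no group, and `b`-regular sequences become accessible.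

Method: a long word has a factor of the form `q v₁ q v₂ ⋯ v_N q` with `q` not empty such that the
rank of its matrix is that of `μ(q)` (`good_of_long`); so the matrices `μ(q v_i)` act as invertible
matrices on the column space of `μ(q)`.  All products of these and, by Zariski density, all elements
of the group they generate give points of `X`.  In this group there is a normal subgroup of bounded
index whose cosets give constant points, as there are no rational curves (library: `neat_const`,
`NN_index_bd`); by the pigeonhole principle some of the factors `q v_i` can be removed without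
changing the point.
-/

namespace Pool.Agent.Results.MP_627a61_nt.WeightedAutomata

open MvPolynomial Pool.Agent.H458.Sp Pool.Agent.TH717.GO Pool.Agent.X251.WA

/-- the points with the homogeneous coordinates `M μ(w) v`, for the words `w` in `W` -/
def wordPoints {A K : Type} [Field K] {n r : ℕ} (M : Matrix (Fin (n + 1)) (Fin r) K)
    (μ : A → Matrix (Fin r) (Fin r) K) (v : Fin r → K) (W : Set (List A)) :
    Set (Projectivization K (Fin (n + 1) → K)) :=
  {P | ∃ w ∈ W, ∃ h0 : pt M μ v w ≠ 0, P = Projectivization.mk K (pt M μ v w) h0}

/-- the points with the homogeneous coordinates `x m`, `m ∈ S` -/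
def seqPoints {K : Type} [Field K] {n : ℕ} (x : ℕ → Fin (n + 1) → K) (S : Set ℕ) :
    Set (Projectivization K (Fin (n + 1) → K)) :=
  {P | ∃ m ∈ S, ∃ h0 : x m ≠ 0, P = Projectivization.mk K (x m) h0}

/-- Weighted automata of size `r` with `q` letters, over number fields of degree at most `D`, whose
words represent points of `X`, or zero: all these points are represented by words of length less
than `Λ = Lam (NB r D) q (r + 1)`; there are at most `1 + q + ⋯ + q ^ (Λ - 1)` points. -/
def AutomatonBound {n : ℕ} {k : Type} [Field k] (FF : Finset (MvPolynomial (Fin (n + 1)) k)) :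
    Prop :=
  ∀ (D r : ℕ) (K : Type) [Field K] [NumberField K] [Algebra k K], Module.finrank ℚ K ≤ D →
    ∀ (A : Type) [Fintype A] (M : Matrix (Fin (n + 1)) (Fin r) K)
      (μ : A → Matrix (Fin r) (Fin r) K) (v : Fin r → K),
      (∀ w, ∀ F ∈ FF, aeval (pt M μ v w) F = 0) →
      wordPoints M μ v Set.univ =
        wordPoints M μ v {w | w.length < Lam (NB r D) (Fintype.card A) (r + 1)} ∧
      (wordPoints M μ v Set.univ).encard ≤
        ((∑ i ∈ Finset.range (Lam (NB r D) (Fintype.card A) (r + 1)), Fintype.card A ^ i : ℕ) : ℕ∞)

/-- `b`-regular sequences of rank at most `r` of points of `X`, or zero, over number fields of degree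
at most `D`: all the points occur for arguments less than `b ^ Λ`,
`Λ = Lam (NB r D) b (r + 1)`. -/
def RegularBound {n : ℕ} {k : Type} [Field k] (FF : Finset (MvPolynomial (Fin (n + 1)) k)) : Prop :=
  ∀ (D r : ℕ) (K : Type) [Field K] [NumberField K] [Algebra k K], Module.finrank ℚ K ≤ D →
    ∀ b : ℕ, 2 ≤ b → ∀ x : ℕ → Fin (n + 1) → K, Reg b r x →
      (∀ m, ∀ F ∈ FF, aeval (x m) F = 0) →
      seqPoints x Set.univ = seqPoints x {m | m < b ^ Lam (NB r D) b (r + 1)}

/-- 2-regular sequences of points of `X`, or zero, over number fields consist of finitely many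
points -/
def RegularFinite {n : ℕ} {k : Type} [Field k] (FF : Finset (MvPolynomial (Fin (n + 1)) k)) :
    Prop :=
  ∀ (r : ℕ) (K : Type) [Field K] [NumberField K] [Algebra k K] (x : ℕ → Fin (n + 1) → K),
    Reg 2 r x → (∀ m, ∀ F ∈ FF, aeval (x m) F = 0) → (seqPoints x Set.univ).Finite

theorem wordPoints_eq {A k K : Type} [Field k] [Field K] [Algebra k K] {n r : ℕ}
    (M : Matrix (Fin (n + 1)) (Fin r) K)
    (μ : A → Matrix (Fin r) (Fin r) K) (v : Fin r → K) (W : Set (List A)) :
    wordPoints M μ v W = wordPts (1 : MvPolynomial (Fin (n + 1)) k) M μ v W := by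
  ext P
  constructor
  · rintro ⟨w, hw, h0, h⟩
    exact ⟨w, hw, h0, by rw [map_one]; exact one_ne_zero, h⟩
  · rintro ⟨w, hw, h0, -, h⟩
    exact ⟨w, hw, h0, h⟩

theorem seqPoints_eq {k K : Type} [Field k] [Field K] [Algebra k K] {n : ℕ}
    (x : ℕ → Fin (n + 1) → K) (S : Set ℕ) :
    seqPoints x S = seqPts (1 : MvPolynomial (Fin (n + 1)) k) x S := by
  ext P
  constructor
  · rintro ⟨w, hw, h0, h⟩
    exact ⟨w, hw, h0, by rw [map_one]; exact one_ne_zero, h⟩
  · rintro ⟨w, hw, h0, -, h⟩
    exact ⟨w, hw, h0, h⟩

theorem seqPoints_finite {K : Type} [Field K] {n : ℕ} (x : ℕ → Fin (n + 1) → K) (S : Set ℕ)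
    (hS : S.Finite) : (seqPoints x S).Finite := by
  classical
  refine (hS.image fun m => if h : x m ≠ 0 then Projectivization.mk K (x m) h
    else Projectivization.mk K (fun _ => 1) (fun h => one_ne_zero (congrFun h 0))).subset ?_
  rintro P ⟨m, hm, h0, rfl⟩
  refine ⟨m, hm, ?_⟩
  simp only [dif_pos h0]

/-- Let `X ⊆ ℙⁿ` be given by the forms in `FF` over the number field `k` and let `σ` be an embedding
of `k` in `ℂ`. (1) If `X_σ` is Brody hyperbolic, it contains no nonconstant rational curve. (2) The
following are equivalent: `X_σ` contains no nonconstant rational curve; `AutomatonBound`;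
`RegularBound`; `RegularFinite`. -/
theorem result (k : Type) [Field k] [NumberField k] (n : ℕ)
    (FF : Finset (MvPolynomial (Fin (n + 1)) k)) (hhom : ∀ F ∈ FF, ∃ e, F.IsHomogeneous e)
    (σ : k →+* ℂ) :
    (BrodyHyperbolic ((MvPolynomial.map σ) '' (FF : Set (MvPolynomial (Fin (n + 1)) k))) →
      NoRatC σ (FF : Set (MvPolynomial (Fin (n + 1)) k))) ∧
    List.TFAE [NoRatC σ (FF : Set (MvPolynomial (Fin (n + 1)) k)), AutomatonBound FF,
      RegularBound FF, RegularFinite FF] := by
  refine ⟨fun hyp => ?_, ?_⟩
  · intro q hq i j a b
    refine Pool.Agent.TH409.SH.no_curveC' _ ?_ hyp q ?_ i j a b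
    · rintro _ ⟨F, hF, rfl⟩
      obtain ⟨e, he⟩ := hhom F hF
      exact ⟨e, he.map _⟩
    · rintro _ ⟨F, hF, rfl⟩
      rw [aeval_def, MvPolynomial.eval₂_map]
      exact hq F hF
  · tfae_have 1 → 2 := by
      intro hno D r K _ _ _ hD A _ M μ v hX
      have h1 := wordPts_eq (FF : Set (MvPolynomial (Fin (n + 1)) k)) hhom 1
        ⟨0, MvPolynomial.isHomogeneous_one _ _⟩ (noRat_all σ _ hno (r * r))
        (specDeg_of_numberField K D hD) μ M v hX
      rw [← wordPoints_eq, ← wordPoints_eq] at h1
      refine ⟨h1, ?_⟩
      rw [h1, wordPoints_eq (k := k)]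
      exact encard_wordPts_le _ M μ v _
    tfae_have 2 → 1 := by
      intro h
      by_contra hno
      obtain ⟨r, K, iK, iN, iA, x, hx, hX, hinf⟩ := converse_seq σ _ hno
      obtain ⟨s, μ, M, v, -, hrep⟩ := (hx 2).exists_rep
      have h1 := (h (Module.finrank ℚ K) s K le_rfl (Fin 2) M μ v
        (fun w F hF => by rw [hrep]; exact hX _ F hF)).2
      apply hinf
      refine (Set.finite_of_encard_le_coe h1).subset ?_
      rintro P ⟨m, -, h0, -, rfl⟩
      let w : List (Fin 2) := (Nat.digits 2 m).attach.map fun d =>
        ⟨d.1, Nat.digits_lt_base (by omega) d.2⟩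
      have hw : Nat.ofDigits 2 (w.map Fin.val) = m := by
        have h3 : w.map Fin.val = Nat.digits 2 m := by
          simp only [w, List.map_map]
          exact List.attach_map_subtype_val (Nat.digits 2 m)
        rw [h3, Nat.ofDigits_digits]
      have hpt : pt M μ v w = x m := by rw [hrep, hw]
      refine ⟨w, trivial, by rw [hpt]; exact h0, ?_⟩
      rw [Projectivization.mk_eq_mk_iff']
      exact ⟨1, by rw [one_smul, hpt]⟩
    tfae_have 1 → 3 := by
      intro hno D r K _ _ _ hD b hb x hx hX
      have h1 := seqPts_eq (FF : Set (MvPolynomial (Fin (n + 1)) k)) hhom 1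
        ⟨0, MvPolynomial.isHomogeneous_one _ _⟩ (noRat_all σ _ hno (r * r))
        (specDeg_of_numberField K D hD) hb x hx hX
      rw [← seqPoints_eq, ← seqPoints_eq] at h1
      exact h1
    tfae_have 3 → 4 := by
      intro h r K _ _ _ x hx hX
      rw [h _ r K le_rfl 2 le_rfl x hx hX]
      exact seqPoints_finite x _ (Set.finite_lt_nat _)
    tfae_have 4 → 1 := by
      intro h
      by_contra hno
      obtain ⟨r, K, iK, iN, iA, x, hx, hX, hinf⟩ := converse_seq σ _ hno
      apply hinf
      rw [← seqPoints_eq]
      exact h r K x (hx 2) hX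
    tfae_finish

end Pool.Agent.Results.MP_627a61_nt.WeightedAutomata
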